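import Mathlib
import Pool.Agent.K7.H63.TC.Lam

set_option autoImplicit false

/-! The sums of `Λ (b n + u) Λ (a n + v)`, `a u - b v = s m`, for almost all members `s m` of a family of nearly
minimal additive energy. -/

namespace Pool.Agent.K7.H63.TC

open Finset Pool.Agent.H373R2.T7
open Pool.Agent.W109.LT (fk Ez)

/-- the first weight -/
noncomputable def G1 (a b N : ℕ) (L2 : ℝ) (y : ℕ) : ℂ :=
  if b ∣ y ∧ a ≤ y / b ∧ y / b ≤ a * N + (a - 1) then ((ArithmeticFunction.vonMangoldt (y / b) / L2 : ℝ) : ℂ) else 0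

/-- the second weight -/
noncomputable def G2 (a z A : ℕ) (L2 : ℝ) (y : ℕ) : ℂ :=
  if a ∣ y ∧ y ≤ A then ((lamz z (y / a) / L2 : ℝ) : ℂ) else 0

lemma first_sum {a b N z u v c H : ℕ} {L2 : ℝ} (ha : 1 ≤ a) (hb : 1 ≤ b) (hc : (a : ℤ) * u - b * v = c) (hv : v < a)
    (hab : Nat.Coprime a b) (hH : b * (a * N + a) + c ≤ H) :
    ∑ y ∈ Icc 1 (b * (a * N + a)), G1 a b N L2 y * fz (fk z a) H ((y : ℤ) + (c : ℤ)) =
      ((∑ n ∈ Icc 1 N, ArithmeticFunction.vonMangoldt (a * n + v) / L2 * Ez z (b * n + u) : ℝ) : ℂ) := by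
  have hc' : a * u = b * v + c := by
    have : (a : ℤ) * u = b * v + c := by linarith
    exact_mod_cast this
  push_cast
  symm
  apply Finset.sum_of_injOn (fun n => b * (a * n + v))
  · intro n _ n' _ h
    have h5 := Nat.eq_of_mul_eq_mul_left (by omega) h
    have h6 : a * n = a * n' := by omega
    exact Nat.eq_of_mul_eq_mul_left (by omega) h6
  · intro n hn
    rw [mem_coe, mem_Icc] at hn ⊢
    have h1 : 1 ≤ a * n := Nat.mul_pos ha hn.1
    have h2 : a * n ≤ a * N := Nat.mul_le_mul_left _ hn.2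
    exact ⟨Nat.mul_pos hb (by omega), Nat.mul_le_mul_left _ (by omega)⟩
  · intro y hy hny
    unfold G1
    split_ifs with hcond
    · obtain ⟨⟨q, rfl⟩, h2, h3⟩ := hcond
      rw [Nat.mul_div_cancel_left _ (by omega)] at h2 h3
      unfold fz
      split_ifs with h4
      · have e : (((b * q : ℕ) : ℤ) + (c : ℤ)).toNat = b * q + c := by
          rw [← Nat.cast_add, Int.toNat_natCast]
        rw [e]
        unfold fk
        split_ifs with h5
        · exfalso
          apply hny
          -- q ≡ v mod a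
          have h6 : (a : ℤ) ∣ (q : ℤ) - v := by
            have h7 : (a : ℤ) ∣ b * ((q : ℤ) - v) := by
              have h8 : (a : ℤ) ∣ ((b * q + c : ℕ) : ℤ) := by exact_mod_cast h5
              have e2 : (b : ℤ) * ((q : ℤ) - v) = ((b * q + c : ℕ) : ℤ) - a * u := by
                push_cast
                linarith
              rw [e2]
              exact dvd_sub h8 (dvd_mul_right _ _)
            exact (Nat.isCoprime_iff_coprime.2 hab).dvd_of_dvd_mul_left h7
          obtain ⟨t, ht⟩ := h6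
          have ha0 : (0 : ℤ) < a := by exact_mod_cast ha
          have hqa : (a : ℤ) ≤ q := by exact_mod_cast h2
          have hva : (v : ℤ) < a := by exact_mod_cast hv
          have ht1 : 0 < t := by
            by_contra hcon
            have h9 : (a : ℤ) * t ≤ 0 := mul_nonpos_of_nonneg_of_nonpos ha0.le (by omega)
            omega
          obtain ⟨n, rfl⟩ : ∃ n : ℕ, t = n := ⟨t.toNat, by omega⟩
          have hq : q = a * n + v := by
            have : (q : ℤ) = a * n + v := by linarith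
            exact_mod_cast this
          refine ⟨n, ?_, ?_⟩
          · rw [mem_coe, mem_Icc]
            refine ⟨by exact_mod_cast ht1, ?_⟩
            by_contra hcon
            have h9 : a * (N + 1) ≤ a * n := Nat.mul_le_mul_left _ (by omega)
            have h10 : a * (N + 1) = a * N + a := by ring
            omega
          · simp only
            rw [hq]
        · rw [mul_zero]
      · rw [mul_zero]
    · rw [zero_mul]
  · intro n hn
    rw [mem_Icc] at hn
    have hb0 : 0 < b := by omega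
    have h1 : a * 1 ≤ a * n := Nat.mul_le_mul_left _ hn.1
    have h2 : a * n ≤ a * N := Nat.mul_le_mul_left _ hn.2
    have e1 : b * (a * n + v) / b = a * n + v := Nat.mul_div_cancel_left _ hb0
    have hcond : b ∣ b * (a * n + v) ∧ a ≤ b * (a * n + v) / b ∧ b * (a * n + v) / b ≤ a * N + (a - 1) := by
      rw [e1]
      exact ⟨dvd_mul_right _ _, by omega, by omega⟩
    have e2 : ((b * (a * n + v) : ℕ) : ℤ) + (c : ℤ) = ((a * (b * n + u) : ℕ) : ℤ) := by
      have : b * (a * n + v) + c = a * (b * n + u) := by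
        rw [mul_add, mul_add, hc']
        ring
      exact_mod_cast this
    have hle : a * (b * n + u) ≤ H := by
      have h5 : b * (a * n + v) + c = a * (b * n + u) := by
        rw [mul_add, mul_add, hc']
        ring
      have h6 : b * (a * n + v) ≤ b * (a * N + a) := Nat.mul_le_mul_left _ (by omega)
      omega
    have hge : 1 ≤ a * (b * n + u) := by
      apply Nat.mul_pos ha
      have := Nat.mul_pos hb hn.1
      omega
    unfold G1
    rw [if_pos hcond, e2]
    unfold fz
    rw [if_pos ⟨by exact_mod_cast hge, by exact_mod_cast hle⟩, Int.toNat_natCast]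
    unfold fk
    rw [if_pos (dvd_mul_right _ _), e1, Nat.mul_div_cancel_left _ (show 0 < a by omega)]
    push_cast
    ring

lemma second_sum {a b N z u v c : ℕ} {L2 : ℝ} (ha : 1 ≤ a) (hb : 1 ≤ b) (hc : (a : ℤ) * u - b * v = c) (hv : v < a)
    (hab : Nat.Coprime a b) (A : ℕ) (hA : b * (a * N + a) + c ≤ A) :
    ∑ y ∈ Icc 1 A, G2 a z A L2 y * fz (fk z b) (b * (a * N + (a - 1))) ((y : ℤ) + (-(c : ℤ))) =
      ((∑ n ∈ Icc 1 N, lamz z (b * n + u) / L2 * Ez z (a * n + v) +
        (if 1 ≤ v then lamz z u / L2 * Ez z v else 0) : ℝ) : ℂ) := by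
  have hc' : a * u = b * v + c := by
    have : (a : ℤ) * u = b * v + c := by linarith
    exact_mod_cast this
  have hsplit : (∑ n ∈ Icc 1 N, lamz z (b * n + u) / L2 * Ez z (a * n + v) +
        (if 1 ≤ v then lamz z u / L2 * Ez z v else 0) : ℝ) =
      ∑ n ∈ (range (N + 1)).filter (fun n => 1 ≤ a * n + v), lamz z (b * n + u) / L2 * Ez z (a * n + v) := by
    rw [sum_filter, sum_range_succ', ← sum_filter]
    congr 1
    · rw [sum_filter]
      have e : Icc 1 N = (range N).image (fun n => n + 1) := by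
        ext n
        rw [mem_Icc, mem_image]
        constructor
        · rintro ⟨h1, h2⟩
          exact ⟨n - 1, by rw [mem_range]; omega, by omega⟩
        · rintro ⟨k, hk, rfl⟩
          rw [mem_range] at hk
          omega
      rw [e, sum_image (fun x _ y _ h => by simpa using h)]
      apply sum_congr rfl
      intro n _
      rw [if_pos]
      have := Nat.mul_pos (show 0 < a by omega) (show 0 < n + 1 by omega)
      omega
    · simp
  rw [hsplit]
  push_cast
  symm
  apply Finset.sum_of_injOn (fun n => a * (b * n + u))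
  · intro n _ n' _ h
    have h5 := Nat.eq_of_mul_eq_mul_left (by omega) h
    have h6 : b * n = b * n' := by omega
    exact Nat.eq_of_mul_eq_mul_left (by omega) h6
  · intro n hn
    rw [mem_coe, mem_filter, mem_range] at hn
    rw [mem_coe, mem_Icc]
    have h1 : a * (b * n + u) = b * (a * n + v) + c := by
      rw [mul_add, mul_add, hc']
      ring
    have h2 : a * n ≤ a * N := Nat.mul_le_mul_left _ (by omega)
    have h3 : b * (a * n + v) ≤ b * (a * N + a) := Nat.mul_le_mul_left _ (by omega)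
    have h4 : 1 ≤ b * (a * n + v) := Nat.mul_pos hb hn.2
    show 1 ≤ a * (b * n + u) ∧ a * (b * n + u) ≤ A
    omega
  · intro y hy hny
    unfold G2
    split_ifs with hcond
    · obtain ⟨⟨p, rfl⟩, -⟩ := hcond
      unfold fz
      split_ifs with h4
      · obtain ⟨w, hw⟩ : ∃ w : ℕ, ((a * p : ℕ) : ℤ) + (-(c : ℤ)) = w := ⟨(((a * p : ℕ) : ℤ) + (-(c : ℤ))).toNat, by omega⟩
        rw [hw, Int.toNat_natCast]
        rw [hw] at h4
        have hw1 : 1 ≤ w := by exact_mod_cast h4.1
        have hw2 : w ≤ b * (a * N + (a - 1)) := by exact_mod_cast h4.2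
        unfold fk
        split_ifs with h5
        · exfalso
          apply hny
          obtain ⟨q, rfl⟩ := h5
          have hq1 : 1 ≤ q := by
            rcases Nat.eq_zero_or_pos q with h0 | h0
            · rw [h0, mul_zero] at hw1; omega
            · exact h0
          have hq2 : q ≤ a * N + (a - 1) := Nat.le_of_mul_le_mul_left hw2 (by omega)
          have hpq : (a : ℤ) * p - c = b * q := by
            push_cast at hw
            linarith
          have h6 : (a : ℤ) ∣ (q : ℤ) - v := by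
            have h7 : (a : ℤ) ∣ b * ((q : ℤ) - v) := by
              have e2 : (b : ℤ) * ((q : ℤ) - v) = a * ((p : ℤ) - u) := by
                have : (b : ℤ) * ((q : ℤ) - v) = b * q - b * v := by ring
                rw [this, ← hpq]
                linarith
              rw [e2]
              exact dvd_mul_right _ _
            exact (Nat.isCoprime_iff_coprime.2 hab).dvd_of_dvd_mul_left h7
          obtain ⟨t, ht⟩ := h6
          have ha0 : (0 : ℤ) < a := by exact_mod_cast ha
          have hva : (v : ℤ) < a := by exact_mod_cast hv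
          have hq0 : (0 : ℤ) < q := by exact_mod_cast hq1
          have ht1 : 0 ≤ t := by
            by_contra hcon
            have h9 : (a : ℤ) * t ≤ a * (-1) := mul_le_mul_of_nonneg_left (by omega) ha0.le
            omega
          obtain ⟨n, rfl⟩ : ∃ n : ℕ, t = n := ⟨t.toNat, by omega⟩
          have hq : q = a * n + v := by
            have : (q : ℤ) = a * n + v := by linarith
            exact_mod_cast this
          have hp : p = b * n + u := by
            have h9 : (a : ℤ) * p = a * (b * n + u) := by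
              rw [hq] at hpq
              push_cast at hpq
              linarith
            have := mul_left_cancel₀ ha0.ne' h9
            exact_mod_cast this
          refine ⟨n, ?_, ?_⟩
          · rw [mem_coe, mem_filter, mem_range]
            refine ⟨?_, by omega⟩
            by_contra hcon
            have h9 : a * (N + 1) ≤ a * n := Nat.mul_le_mul_left _ (by omega)
            have h10 : a * (N + 1) = a * N + a := by ring
            omega
          · simp only
            rw [hp]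
        · rw [mul_zero]
      · rw [mul_zero]
    · rw [zero_mul]
  · intro n hn
    rw [mem_filter, mem_range] at hn
    have h1 : a * (b * n + u) = b * (a * n + v) + c := by
      rw [mul_add, mul_add, hc']
      ring
    have h2 : a * n ≤ a * N := Nat.mul_le_mul_left _ (by omega)
    have h3 : b * (a * n + v) ≤ b * (a * N + (a - 1)) := Nat.mul_le_mul_left _ (by omega)
    have h3' : b * (a * n + v) ≤ b * (a * N + a) := Nat.mul_le_mul_left _ (by omega)
    have h4 : 1 ≤ b * (a * n + v) := Nat.mul_pos hb hn.2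
    have e2 : ((a * (b * n + u) : ℕ) : ℤ) + (-(c : ℤ)) = ((b * (a * n + v) : ℕ) : ℤ) := by
      rw [h1]
      push_cast
      ring
    have e1 : a * (b * n + u) / a = b * n + u := Nat.mul_div_cancel_left _ (by omega)
    unfold G2
    rw [if_pos ⟨dvd_mul_right _ _, by omega⟩, e2]
    unfold fz
    rw [if_pos ⟨by exact_mod_cast h4, by exact_mod_cast h3⟩, Int.toNat_natCast]
    unfold fk
    rw [if_pos (dvd_mul_right _ _), e1, Nat.mul_div_cancel_left _ (show 0 < b by omega)]
    push_cast
    ring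

lemma Ez_abs {z n : ℕ} {L : ℝ} (hV : (Vz z)⁻¹ ≤ L) (hL : 0 ≤ L) (hn : 1 ≤ n) (hn2 : Real.log n ≤ 2 * L) :
    |Ez z n| ≤ 2 * L := by
  unfold Ez
  have h5 : ArithmeticFunction.vonMangoldt n ≤ 2 * L := ArithmeticFunction.vonMangoldt_le_log.trans hn2
  have h6 : (0 : ℝ) ≤ ArithmeticFunction.vonMangoldt n := ArithmeticFunction.vonMangoldt_nonneg
  have h7 := lamz_nonneg z n
  have h8 : lamz z n ≤ L := by
    unfold lamz
    split_ifs
    · exact hV
    · exact hL
  rw [abs_le]
  constructor <;> linarith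

theorem diff2 (a b : ℕ) (ha : 1 ≤ a) (hb : 1 ≤ b) (hab : Nat.Coprime a b) (h B C U : ℕ) :
    ∃ B0 : ℕ, ∀ E : ℕ, ∃ N0 : ℕ, ∀ N : ℕ, N0 ≤ N → ∀ (x : ℕ) (s : ℕ → ℕ),
      (∀ m ∈ Icc 1 x, s m ≤ B * N) →
      (energy h x (fun m => (s m : ℤ)) : ℝ) * N ≤ Real.log N ^ C * (x : ℝ) ^ (2 * h) →
      ∀ z : ℕ, Real.log N ^ B0 ≤ z → (z : ℝ) ≤ Real.log N ^ E →
      ∀ u v : ℕ → ℕ, (∀ m ∈ Icc 1 x, (a : ℤ) * u m - b * v m = s m ∧ v m < a) →
      ∑ m ∈ Icc 1 x, |∑ n ∈ Icc 1 N, (ArithmeticFunction.vonMangoldt (b * n + u m) * ArithmeticFunction.vonMangoldt (a * n + v m) -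
        lamz z (b * n + u m) * lamz z (a * n + v m))| ≤ N * x / Real.log N ^ U := by
  obtain ⟨B', hB'⟩ : ∃ B' : ℕ, B' = 2 * (a * b) + B := ⟨_, rfl⟩
  obtain ⟨B1, hB1⟩ := lam_k h a B' C (U + 2) ha
  obtain ⟨B2, hB2⟩ := lam_k h b B' C (U + 2) hb
  refine ⟨max B1 B2, fun E => ?_⟩
  obtain ⟨n1, h1⟩ := hB1 E
  obtain ⟨n2, h2⟩ := hB2 E
  obtain ⟨n3, h3⟩ := Vz_inv_small E
  obtain ⟨n4, h4⟩ := ev_L' (Real.log (2 * B' + 2) + 16)
  obtain ⟨n5, h5⟩ := ev_log' (U + 3) 1
  refine ⟨max (max n1 n2) (max (max n3 n4) (max n5 (a + 3))), fun N hN x s hs hE z hz1 hz2 u v huv => ?_⟩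
  have b1 : n1 ≤ N := le_trans (le_trans (le_max_left _ _) (le_max_left _ _)) hN
  have b2 : n2 ≤ N := le_trans (le_trans (le_max_right _ _) (le_max_left _ _)) hN
  have b3 : n3 ≤ N := le_trans (le_trans (le_trans (le_max_left _ _) (le_max_left _ _)) (le_max_right _ _)) hN
  have b4 : n4 ≤ N := le_trans (le_trans (le_trans (le_max_right _ _) (le_max_left _ _)) (le_max_right _ _)) hN
  have b5 : n5 ≤ N := le_trans (le_trans (le_trans (le_max_left _ _) (le_max_right _ _)) (le_max_right _ _)) hN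
  have b6 : a + 3 ≤ N := le_trans (le_trans (le_trans (le_max_right _ _) (le_max_right _ _)) (le_max_right _ _)) hN
  have hN0 : (0 : ℝ) < N := by exact_mod_cast (by omega : 0 < N)
  have hL := h4 N b4
  have hL5 := h5 N b5
  set L := Real.log N with hLd
  rw [one_mul] at hL5
  have hlB : 0 ≤ Real.log (2 * (B' : ℝ) + 2) := Real.log_nonneg (by
    have := Nat.cast_nonneg (α := ℝ) B'
    linarith)
  have hL16 : 16 ≤ L := by linarith
  have hL0 : 0 < L := by linarith
  have hL1 : 1 ≤ L := by linarith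
  have hz : 1 ≤ z := by
    have : (1 : ℝ) ≤ z := (one_le_pow₀ hL1).trans hz1
    exact_mod_cast this
  have hz1a : L ^ B1 ≤ z := (pow_le_pow_right₀ hL1 (le_max_left _ _)).trans hz1
  have hz1b : L ^ B2 ≤ z := (pow_le_pow_right₀ hL1 (le_max_right _ _)).trans hz1
  have hV := h3 N b3 z hz hz2
  -- sizes
  have hNab : b * (a * N + a) ≤ 2 * (a * b) * N := by
    have h6 : b * (a * N + a) = (a * b) * (N + 1) := by ring
    have h7 : 2 * (a * b) * N = (a * b) * (2 * N) := by ring
    rw [h6, h7]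
    exact Nat.mul_le_mul_left _ (by omega)
  obtain ⟨H, hH⟩ : ∃ H : ℕ, H = b * (a * N + a) + B * N := ⟨_, rfl⟩
  have hHB : H ≤ B' * N := by
    rw [hH, hB', add_mul]
    omega
  have hab1 : 1 ≤ a * b := Nat.mul_pos ha hb
  have hNH : N ≤ H := by
    have h6 : b * (a * N + a) = (a * b) * (N + 1) := by ring
    have h7 : 1 * (N + 1) ≤ (a * b) * (N + 1) := Nat.mul_le_mul_right _ hab1
    omega
  have hH2 : N ≤ b * (a * N + (a - 1)) := by
    have h7 : 1 * N ≤ (a * b) * N := Nat.mul_le_mul_right _ hab1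
    have h8 : b * (a * N + (a - 1)) = (a * b) * N + b * (a - 1) := by ring
    omega
  have hH2' : b * (a * N + (a - 1)) ≤ B' * N := by
    have h7 : b * (a * N + (a - 1)) ≤ b * (a * N + a) := Nat.mul_le_mul_left _ (by omega)
    omega
  have hlogH : Real.log H ≤ 2 * L := by
    have h6 : (H : ℝ) ≤ (2 * B' + 2) * N := by
      have : H ≤ (2 * B' + 2) * N := hHB.trans (Nat.mul_le_mul_right _ (by omega))
      exact_mod_cast this
    have h7 := Real.log_le_log (by exact_mod_cast (by omega : 0 < H)) h6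
    rw [Real.log_mul (by positivity) hN0.ne'] at h7
    linarith
  have hlog : ∀ n : ℕ, 1 ≤ n → n ≤ H → Real.log n ≤ 2 * L := fun n hn1 hn2 =>
    (Real.log_le_log (by exact_mod_cast hn1) (by exact_mod_cast hn2)).trans hlogH
  have hqH : a * N + (a - 1) ≤ H := by
    have h6 : 1 * (a * N + a) ≤ b * (a * N + a) := Nat.mul_le_mul_right _ hb
    omega
  have hlz : ∀ n, lamz z n ≤ L := by
    intro n
    unfold lamz
    split_ifs
    · exact hV
    · exact hL0.le
  obtain ⟨L2, hL2⟩ : ∃ L2 : ℝ, L2 = 2 * L := ⟨_, rfl⟩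
  have hL20 : 0 < L2 := by rw [hL2]; positivity
  have hG1 : ∀ y, ‖G1 a b N L2 y‖ ≤ 1 := by
    intro y
    unfold G1
    split_ifs with h6
    · rw [Complex.norm_real, Real.norm_eq_abs, abs_div, abs_of_pos hL20, div_le_one hL20,
        abs_of_nonneg ArithmeticFunction.vonMangoldt_nonneg]
      refine ArithmeticFunction.vonMangoldt_le_log.trans ?_
      rw [hL2]
      exact hlog _ (ha.trans h6.2.1) (h6.2.2.trans hqH)
    · rw [norm_zero]
      exact zero_le_one
  have hG2 : ∀ y, ‖G2 a z H L2 y‖ ≤ 1 := by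
    intro y
    unfold G2
    split_ifs with h6
    · rw [Complex.norm_real, Real.norm_eq_abs, abs_div, abs_of_pos hL20, div_le_one hL20,
        abs_of_nonneg (lamz_nonneg _ _), hL2]
      have := hlz (y / a)
      linarith
    · rw [norm_zero]
      exact zero_le_one
  have hsz : ∀ m ∈ Icc 1 x, |((s m : ℕ) : ℤ)| ≤ B' * N := by
    intro m hm
    rw [abs_of_nonneg (by positivity)]
    have h6 : s m ≤ B' * N := (hs m hm).trans (Nat.mul_le_mul_right _ (by omega))
    exact_mod_cast h6
  have hE' : (energy h x (fun m => -((s m : ℕ) : ℤ)) : ℝ) * N ≤ L ^ C * (x : ℝ) ^ (2 * h) := by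
    refine le_trans (le_of_eq ?_) hE
    congr 2
    unfold energy
    congr 1
    apply filter_congr
    intro q _
    simp only [sum_neg_distrib, neg_inj]
  have k1 := h1 N b1 x (fun m => (s m : ℤ)) hsz hE (b * (a * N + a)) (by omega) H hNH hHB z hz1a hz2 (G1 a b N L2) hG1
  have k2 := h2 N b2 x (fun m => -(s m : ℤ)) (fun m hm => by rw [abs_neg]; exact hsz m hm) hE' H hHB
    (b * (a * N + (a - 1))) hH2 hH2' z hz1b hz2 (G2 a z H L2) hG2
  -- the pointwise bound
  have hpt : ∀ m ∈ Icc 1 x, |∑ n ∈ Icc 1 N, (ArithmeticFunction.vonMangoldt (b * n + u m) * ArithmeticFunction.vonMangoldt (a * n + v m) -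
        lamz z (b * n + u m) * lamz z (a * n + v m))| ≤
      L2 * (‖∑ y ∈ Icc 1 (b * (a * N + a)), G1 a b N L2 y * fz (fk z a) H ((y : ℤ) + (s m : ℤ))‖ +
        ‖∑ y ∈ Icc 1 H, G2 a z H L2 y * fz (fk z b) (b * (a * N + (a - 1))) ((y : ℤ) + (-(s m : ℤ)))‖) + L2 ^ 2 := by
    intro m hm
    obtain ⟨hm1, hm2⟩ := huv m hm
    have hsm : b * (a * N + a) + s m ≤ H := by
      rw [hH]
      have := hs m hm
      omega
    rw [first_sum ha hb hm1 hm2 hab hsm, second_sum ha hb hm1 hm2 hab H hsm]
    rw [Complex.norm_real, Complex.norm_real, Real.norm_eq_abs, Real.norm_eq_abs]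
    have hx : |(if 1 ≤ v m then lamz z (u m) / L2 * Ez z (v m) else 0 : ℝ)| ≤ L2 := by
      split_ifs with h6
      · rw [abs_mul, abs_div, abs_of_pos hL20, abs_of_nonneg (lamz_nonneg _ _)]
        have h7 : lamz z (u m) / L2 ≤ 1 := by
          rw [div_le_one hL20, hL2]
          have := hlz (u m)
          linarith
        have h8 : |Ez z (v m)| ≤ L2 := by
          rw [hL2]
          refine Ez_abs hV hL0.le h6 (hlog _ h6 ?_)
          omega
        calc lamz z (u m) / L2 * |Ez z (v m)| ≤ 1 * L2 :=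
              mul_le_mul h7 h8 (abs_nonneg _) zero_le_one
          _ = L2 := one_mul _
      · rw [abs_zero]
        exact hL20.le
    obtain ⟨X1, hX1⟩ : ∃ X1 : ℝ, X1 = ∑ n ∈ Icc 1 N, ArithmeticFunction.vonMangoldt (a * n + v m) / L2 * Ez z (b * n + u m) := ⟨_, rfl⟩
    obtain ⟨X2, hX2⟩ : ∃ X2 : ℝ, X2 = ∑ n ∈ Icc 1 N, lamz z (b * n + u m) / L2 * Ez z (a * n + v m) := ⟨_, rfl⟩
    have e : ∑ n ∈ Icc 1 N, (ArithmeticFunction.vonMangoldt (b * n + u m) * ArithmeticFunction.vonMangoldt (a * n + v m) -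
        lamz z (b * n + u m) * lamz z (a * n + v m)) = L2 * (X1 + X2) := by
      rw [hX1, hX2, ← sum_add_distrib, mul_sum]
      apply sum_congr rfl
      intro n _
      unfold Ez
      field_simp
      ring
    rw [e, ← hX1, ← hX2, abs_mul, abs_of_pos hL20]
    have h9 : |X1 + X2| ≤ |X1| + |X2 + (if 1 ≤ v m then lamz z (u m) / L2 * Ez z (v m) else 0 : ℝ)| + L2 := by
      have e2 : X1 + X2 = X1 + (X2 + (if 1 ≤ v m then lamz z (u m) / L2 * Ez z (v m) else 0 : ℝ)) -
        (if 1 ≤ v m then lamz z (u m) / L2 * Ez z (v m) else 0 : ℝ) := by ring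
      rw [e2]
      refine (abs_sub _ _).trans (add_le_add (abs_add_le _ _) hx)
    calc L2 * |X1 + X2| ≤ L2 * (|X1| + |X2 + (if 1 ≤ v m then lamz z (u m) / L2 * Ez z (v m) else 0 : ℝ)| + L2) :=
          mul_le_mul_of_nonneg_left h9 hL20.le
      _ = _ := by ring
  refine (sum_le_sum hpt).trans ?_
  rw [sum_add_distrib, ← mul_sum, sum_add_distrib, sum_const, Nat.card_Icc, nsmul_eq_mul, Nat.add_sub_cancel]
  have hx0 : (0 : ℝ) ≤ x := Nat.cast_nonneg _
  have h6 : L2 * (∑ m ∈ Icc 1 x, ‖∑ y ∈ Icc 1 (b * (a * N + a)), G1 a b N L2 y * fz (fk z a) H ((y : ℤ) + (s m : ℤ))‖ +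
        ∑ m ∈ Icc 1 x, ‖∑ y ∈ Icc 1 H, G2 a z H L2 y * fz (fk z b) (b * (a * N + (a - 1))) ((y : ℤ) + (-(s m : ℤ)))‖) ≤
      L2 * (N * x / L ^ (U + 2) + N * x / L ^ (U + 2)) :=
    mul_le_mul_of_nonneg_left (add_le_add k1 k2) hL20.le
  have h7 : L2 * (N * x / L ^ (U + 2) + N * x / L ^ (U + 2)) = (4 / L) * (N * x / L ^ U) := by
    rw [hL2, pow_add]
    field_simp
    ring
  have h8 : (x : ℝ) * L2 ^ 2 ≤ (1 / 2) * (N * x / L ^ U) := by
    have h9 : L ^ (U + 3) ≤ N := by
      refine hL5.trans ?_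
      rw [Real.sqrt_le_left hN0.le]
      have : (1 : ℝ) ≤ N := by exact_mod_cast (by omega : 1 ≤ N)
      nlinarith
    have h10 : 8 * L ^ (U + 2) ≤ N := by
      refine le_trans ?_ h9
      rw [pow_succ L (U + 2)]
      have : 0 < L ^ (U + 2) := by positivity
      nlinarith
    have h11 : (1 / 2) * ((N : ℝ) * x / L ^ U) = x * ((1 / 2) * (N / L ^ U)) := by ring
    rw [h11]
    apply mul_le_mul_of_nonneg_left _ hx0
    rw [hL2]
    have h12 : (1 / 2 : ℝ) * (N / L ^ U) = N / (2 * L ^ U) := by field_simp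
    rw [h12, le_div_iff₀ (by positivity)]
    calc (2 * L) ^ 2 * (2 * L ^ U) = 8 * L ^ (U + 2) := by rw [pow_add]; ring
      _ ≤ N := h10
  have h9 : (4 / L) * ((N : ℝ) * x / L ^ U) ≤ (1 / 4) * (N * x / L ^ U) := by
    apply mul_le_mul_of_nonneg_right _ (by positivity)
    rw [div_le_div_iff₀ hL0 (by norm_num)]
    linarith
  have h10 : 0 ≤ (N : ℝ) * x / L ^ U := by positivity
  linarith

end Pool.Agent.K7.H63.TC
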