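import Mathlib
import Pool.Agent.K7.H63.TC.Diff
import Pool.Agent.Results.MP_bf63dc_nt.BoundedlyManyPowers

set_option autoImplicit false

/-! The formula of Hardy and Littlewood for `a p - b q = c`, for almost all members `c` of a family of nearly
minimal additive energy. -/

namespace Pool.Agent.K7.H63.TC

open Finset Filter Pool.Agent.H373R2.T7
open Pool.Agent.Results.MP_bf63dc_nt.BoundedlyManyPowers (Ok sing sol Cf Hf nu_eq adm sing_eq sol_eq)

/-- the first solution -/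
lemma sols (a b : ℕ) (ha : 1 ≤ a) (hab : Nat.Coprime a b) (c : ℕ) :
    ∃ w : ℕ × ℕ, (a : ℤ) * w.1 - b * w.2 = c ∧ w.2 < a := by
  have ha0 : (0 : ℤ) < (a : ℤ) := by exact_mod_cast ha
  obtain ⟨s, t, hst⟩ : IsCoprime (b : ℤ) (a : ℤ) := Nat.isCoprime_iff_coprime.2 hab.symm
  obtain ⟨v, hv⟩ : ∃ v : ℕ, (v : ℤ) = (-(c : ℤ) * s) % (a : ℤ) := ⟨_, Int.toNat_of_nonneg (Int.emod_nonneg _ ha0.ne')⟩
  have hv2 : (v : ℤ) < a := by rw [hv]; exact Int.emod_lt_of_pos _ ha0
  have h3 := Int.emod_add_mul_ediv (-(c : ℤ) * s) (a : ℤ)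
  rw [← hv] at h3
  have hd : (a : ℤ) ∣ ((c + b * v : ℕ) : ℤ) := by
    refine ⟨c * t - b * (-(c : ℤ) * s / (a : ℤ)), ?_⟩
    have h5 : (v : ℤ) = -(c : ℤ) * s - (a : ℤ) * (-(c : ℤ) * s / (a : ℤ)) := by linarith
    push_cast
    rw [h5]
    linear_combination (c : ℤ) * (-1) * hst
  obtain ⟨u, hu⟩ := Int.natCast_dvd_natCast.1 hd
  refine ⟨(u, v), ?_, by exact_mod_cast hv2⟩
  have h6 : ((c : ℤ) + b * v) = a * u := by exact_mod_cast hu
  simp only
  linarith

/-- for a system of two forms: the sum with weights, the limit of the singular series and the number -/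
theorem fam (a b : ℕ) (ha : 1 ≤ a) (hb : 1 ≤ b) (hab : Nat.Coprime a b) (h B C U : ℕ) (ε : ℝ) (hε : 0 < ε) :
    ∃ c₀ : ℝ, 0 < c₀ ∧ ∃ N0 : ℕ, ∀ N : ℕ, N0 ≤ N → ∀ (x : ℕ) (s : ℕ → ℕ),
      (∀ m ∈ Icc 1 x, 1 ≤ s m ∧ s m ≤ B * N) →
      (energy h x (fun m => (s m : ℤ)) : ℝ) * N ≤ Real.log N ^ C * (x : ℝ) ^ (2 * h) →
      ∀ u v : ℕ → ℕ, (∀ m, (a : ℤ) * u m - b * v m = s m ∧ v m < a) →
      ∀ T : Finset ℕ, T ⊆ Icc 1 x → (∀ m ∈ T, Ok a b (s m) ∧
        ¬ ∃ G : ℝ, c₀ ≤ G ∧ Tendsto (sing a b (s m)) atTop (nhds G) ∧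
          |(sol a b (s m) (v m) N : ℝ) - G * (N / Real.log N ^ 2)| ≤ ε * (G * (N / Real.log N ^ 2))) →
      (T.card : ℝ) ≤ x / Real.log N ^ U := by
  obtain ⟨Q0, hQ0⟩ : ∃ Q0 : ℕ, Q0 = a + b := ⟨_, rfl⟩
  obtain ⟨B', hB'⟩ : ∃ B' : ℕ, B' = B + b + 1 := ⟨_, rfl⟩
  obtain ⟨c, hc, hlim⟩ := Pool.Agent.Y820.LF.t_lim 2 Q0 (by norm_num)
  obtain ⟨d0, hd0, n1, htr⟩ := Pool.Agent.Y820.LF.t_tr 2 Q0 B' (by norm_num) c ε hc hε
  obtain ⟨n2, hlim⟩ := hlim B' (d0 / 3) (by positivity)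
  obtain ⟨B0, hdiff⟩ := diff2 a b ha hb hab h B C (U + 1)
  obtain ⟨E1, hE1⟩ : ∃ E1 : ℕ, E1 = B0 + 2 := ⟨_, rfl⟩
  obtain ⟨n3, hdiff⟩ := hdiff (E1 + 1)
  obtain ⟨n4, hmain⟩ := Pool.Agent.Y820.LF.t_main0 2 (E1 + 1) 1 (by norm_num)
  obtain ⟨n5, hL5⟩ := ev_L' (3 / (c * d0) + 2)
  refine ⟨c, hc, n1 + n2 + n3 + n4 + n5 + a + 3, fun N hN x s hs hE u v huv T hTx hT => ?_⟩
  have hL := hL5 N (by omega)
  have hN0 : (0 : ℝ) < N := by exact_mod_cast (by omega : 0 < N)
  set L := Real.log N with hLd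
  have hq : 0 < 3 / (c * d0) := by positivity
  have hL1 : 1 ≤ L := by linarith
  have hL0 : 0 < L := by linarith
  obtain ⟨z, hz⟩ : ∃ z : ℕ, z = ⌈L ^ E1⌉₊ := ⟨_, rfl⟩
  have hz1 : L ^ E1 ≤ z := by rw [hz]; exact Nat.le_ceil _
  have hz2 : (z : ℝ) ≤ L ^ (E1 + 1) := by
    have h6 := (Nat.ceil_lt_add_one (show 0 ≤ L ^ E1 by positivity)).le
    have h7 : 1 ≤ L ^ E1 := one_le_pow₀ hL1
    rw [hz, pow_succ]
    nlinarith
  have hzB : L ^ B0 ≤ z := (pow_le_pow_right₀ hL1 (by omega)).trans hz1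
  have hz2' : L ^ 2 ≤ z := (pow_le_pow_right₀ hL1 (by omega)).trans hz1
  have hz0 : (0 : ℝ) < z := lt_of_lt_of_le (by positivity) hz1
  have hzn : 1 ≤ z := by exact_mod_cast hz0
  have hD := hdiff N (by omega) x s (fun m hm => (hs m hm).2) hE z hzB hz2 u v (fun m _ => huv m)
  -- each member of `T` contributes
  have hkey : ∀ m ∈ T, (c * d0 / 3) * N ≤ |∑ n ∈ Icc 1 N, (ArithmeticFunction.vonMangoldt (b * n + u m) * ArithmeticFunction.vonMangoldt (a * n + v m) -
        lamz z (b * n + u m) * lamz z (a * n + v m))| := by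
    intro m hmT
    by_contra hcon
    push Not at hcon
    obtain ⟨hOk, hno⟩ := hT m hmT
    apply hno
    obtain ⟨hm1, hm2⟩ := huv m
    obtain ⟨hs1, hs2⟩ := hs m (hTx hmT)
    have hul : a * u m = b * v m + s m := by
      have : (a : ℤ) * u m = b * v m + s m := by linarith
      exact_mod_cast this
    have hu2 : u m ≤ B' * N := by
      have h7 : u m ≤ a * u m := Nat.le_mul_of_pos_left _ ha
      have h8 : b * v m ≤ b * N := Nat.mul_le_mul_left _ (by omega)
      have h9 : B' * N = B * N + b * N + N := by rw [hB']; ring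
      omega
    have hv2 : v m ≤ B' * N := by
      have h9 : B' * N = B * N + b * N + N := by rw [hB']; ring
      omega
    have hCf : ∀ i, Cf a b i ≠ 0 ∧ |Cf a b i| ≤ Q0 := by
      rw [Fin.forall_fin_two]
      constructor
      · show (b : ℤ) ≠ 0 ∧ |(b : ℤ)| ≤ _
        rw [abs_of_nonneg (by positivity)]
        exact ⟨by exact_mod_cast (by omega : b ≠ 0), by exact_mod_cast (by omega : b ≤ Q0)⟩
      · show (a : ℤ) ≠ 0 ∧ |(a : ℤ)| ≤ _
        rw [abs_of_nonneg (by positivity)]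
        exact ⟨by exact_mod_cast (by omega : a ≠ 0), by exact_mod_cast (by omega : a ≤ Q0)⟩
    have hHf : ∀ i, |Hf (u m) (v m) i| ≤ (B' : ℤ) * N := by
      rw [Fin.forall_fin_two]
      constructor
      · show |(u m : ℤ)| ≤ _
        rw [abs_of_nonneg (by positivity)]
        exact_mod_cast hu2
      · show |(v m : ℤ)| ≤ _
        rw [abs_of_nonneg (by positivity)]
        exact_mod_cast hv2
    have hnd : ∀ i j : Fin 2, i ≠ j → Cf a b i * Hf (u m) (v m) j ≠ Cf a b j * Hf (u m) (v m) i := by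
      have h9 : (b : ℤ) * v m ≠ a * u m := by
        intro hcon2
        have : ((s m : ℕ) : ℤ) = 0 := by linarith
        have : s m = 0 := by exact_mod_cast this
        omega
      intro i j hij
      fin_cases i <;> fin_cases j
      · exact absurd rfl hij
      · exact h9
      · exact h9.symm
      · exact absurd rfl hij
    have hAdm := adm a b (s m) hOk (u m) (v m) hm1
    have hPos : Pool.Agent.Y820.LF.PosF (Cf a b) (Hf (u m) (v m)) N := by
      unfold Pool.Agent.Y820.LF.PosF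
      rw [Fin.forall_fin_two]
      have hN1 : 1 ≤ N := by omega
      constructor
      · show 1 ≤ (b : ℤ) + u m ∧ 1 ≤ (b : ℤ) * N + u m
        have : 1 ≤ b * N := Nat.mul_pos hb hN1
        exact ⟨by exact_mod_cast (by omega : 1 ≤ b + u m), by exact_mod_cast (by omega : 1 ≤ b * N + u m)⟩
      · show 1 ≤ (a : ℤ) + v m ∧ 1 ≤ (a : ℤ) * N + v m
        have : 1 ≤ a * N := Nat.mul_pos ha hN1
        exact ⟨by exact_mod_cast (by omega : 1 ≤ a + v m), by exact_mod_cast (by omega : 1 ≤ a * N + v m)⟩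
    obtain ⟨G, hG1, hG2, hG3⟩ := hlim N (by omega) (Cf a b) (Hf (u m) (v m)) hCf hHf hnd hAdm
    have hG4 := hG3 z hz2'
    have hmn := hmain N (by omega) z hzn hz2 (Cf a b) (Hf (u m) (v m)) hPos hAdm
    have hlamz : ∑ n ∈ Icc 1 N, ∏ i, lamzI z (Cf a b i * (n : ℤ) + Hf (u m) (v m) i) =
        ∑ n ∈ Icc 1 N, lamz z (b * n + u m) * lamz z (a * n + v m) := by
      apply sum_congr rfl
      intro n hn
      rw [mem_Icc] at hn
      rw [Fin.prod_univ_two]
      have e1 : Cf a b 0 * (n : ℤ) + Hf (u m) (v m) 0 = ((b * n + u m : ℕ) : ℤ) := by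
        show (b : ℤ) * n + u m = _
        push_cast; ring
      have e2 : Cf a b 1 * (n : ℤ) + Hf (u m) (v m) 1 = ((a * n + v m : ℕ) : ℤ) := by
        show (a : ℤ) * n + v m = _
        push_cast; ring
      have h7 : 1 ≤ b * n := Nat.mul_pos hb hn.1
      have h8 : 1 ≤ a * n := Nat.mul_pos ha hn.1
      rw [e1, e2]
      unfold lamzI
      rw [if_pos (by exact_mod_cast (by omega : 1 ≤ b * n + u m)), if_pos (by exact_mod_cast (by omega : 1 ≤ a * n + v m)),
        Int.toNat_natCast, Int.toNat_natCast]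
    have hlam : ∑ n ∈ Icc 1 N, ∏ i, lamI (Cf a b i * (n : ℤ) + Hf (u m) (v m) i) =
        ∑ n ∈ Icc 1 N, ArithmeticFunction.vonMangoldt (b * n + u m) * ArithmeticFunction.vonMangoldt (a * n + v m) := by
      apply sum_congr rfl
      intro n hn
      rw [mem_Icc] at hn
      rw [Fin.prod_univ_two]
      have e1 : Cf a b 0 * (n : ℤ) + Hf (u m) (v m) 0 = ((b * n + u m : ℕ) : ℤ) := by
        show (b : ℤ) * n + u m = _
        push_cast; ring
      have e2 : Cf a b 1 * (n : ℤ) + Hf (u m) (v m) 1 = ((a * n + v m : ℕ) : ℤ) := by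
        show (a : ℤ) * n + v m = _
        push_cast; ring
      have h7 : 1 ≤ b * n := Nat.mul_pos hb hn.1
      have h8 : 1 ≤ a * n := Nat.mul_pos ha hn.1
      rw [e1, e2]
      unfold lamI
      rw [if_pos (by exact_mod_cast (by omega : 1 ≤ b * n + u m)), if_pos (by exact_mod_cast (by omega : 1 ≤ a * n + v m)),
        Int.toNat_natCast, Int.toNat_natCast]
    have hsum : |∑ n ∈ Icc 1 N, ∏ i, lamI (Cf a b i * (n : ℤ) + Hf (u m) (v m) i) - G * N| ≤ d0 * (G * N) := by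
      rw [hlamz] at hmn
      rw [sum_sub_distrib] at hcon
      rw [hlam]
      rw [pow_one] at hmn
      have h7 : (N : ℝ) / L ≤ c * d0 / 3 * N := by
        rw [div_le_iff₀ hL0]
        have h8 : 3 / (c * d0) ≤ L := by linarith
        rw [div_le_iff₀ (by positivity)] at h8
        nlinarith
      have h8 : |Pool.Agent.Y820.LF.singF (Cf a b) (Hf (u m) (v m)) z * N - G * N| ≤ d0 / 3 * (G * N) := by
        rw [← sub_mul, abs_mul, abs_of_pos hN0, ← mul_assoc]
        exact mul_le_mul_of_nonneg_right hG4 hN0.le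
      have h9 : c * d0 / 3 * (N : ℝ) ≤ d0 / 3 * (G * N) := by
        have : c * (N : ℝ) ≤ G * N := mul_le_mul_of_nonneg_right hG1 hN0.le
        nlinarith
      have h10 := abs_lt.1 hcon
      have h11 := abs_le.1 hmn
      have h12 := abs_le.1 h8
      rw [abs_le]
      constructor
      · linarith [h10.1, h11.1, h12.1]
      · linarith [h10.2, h11.2, h12.2]
    have hfin := htr N (by omega) (Cf a b) (Hf (u m) (v m)) hCf hHf hPos G hG1 hsum
    refine ⟨G, hG1, ?_, ?_⟩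
    · rw [← sing_eq a b (s m) hOk (u m) (v m) hm1]
      exact hG2
    · rw [sol_eq a b (s m) hOk (u m) (v m) hm1]
      exact hfin
  -- Markov
  have h1 : (T.card : ℝ) * ((c * d0 / 3) * N) ≤ N * x / L ^ (U + 1) := by
    rw [← nsmul_eq_mul]
    refine (card_nsmul_le_sum _ _ _ hkey).trans ?_
    exact (sum_le_sum_of_subset_of_nonneg hTx (fun _ _ _ => abs_nonneg _)).trans hD
  have h2 : (T.card : ℝ) * (c * d0 / 3) ≤ x / L ^ (U + 1) := by
    have h3 : (T.card : ℝ) * (c * d0 / 3) * N ≤ (x / L ^ (U + 1)) * N := by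
      calc _ = (T.card : ℝ) * ((c * d0 / 3) * N) := by ring
        _ ≤ _ := h1
        _ = _ := by ring
    exact le_of_mul_le_mul_right h3 hN0
  have h3 : (T.card : ℝ) ≤ (x / L ^ (U + 1)) * (3 / (c * d0)) := by
    have h4 : (T.card : ℝ) = ((T.card : ℝ) * (c * d0 / 3)) * (3 / (c * d0)) := by field_simp
    rw [h4]
    exact mul_le_mul_of_nonneg_right h2 hq.le
  refine h3.trans ?_
  rw [pow_succ]
  calc (x : ℝ) / (L ^ U * L) * (3 / (c * d0)) ≤ x / (L ^ U * L) * L :=
        mul_le_mul_of_nonneg_left (by linarith) (by positivity)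
    _ = _ := by field_simp

/-- comparison of two expressions for the number of solutions -/
lemma conv (a : ℕ) (ha : 1 ≤ a) (ε : ℝ) (hε : 0 < ε) (hε1 : ε ≤ 1) : ∃ X0 : ℕ, ∀ X : ℕ, X0 ≤ X →
    |((X / a : ℕ) : ℝ) / Real.log ((X / a : ℕ) : ℝ) ^ 2 - X / (a * Real.log X ^ 2)| ≤ ε * (X / (a * Real.log X ^ 2)) := by
  obtain ⟨n1, h1⟩ := ev_L' (4 / ε * Real.log (2 * a) + 4)
  obtain ⟨n2, h2⟩ := exists_nat_ge (a / ε)
  refine ⟨n1 + n2 + 2 * a + 3, fun X hX => ?_⟩
  have hL := h1 X (by omega)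
  have har : (1 : ℝ) ≤ a := by exact_mod_cast ha
  have hX0 : (0 : ℝ) < X := by exact_mod_cast (by omega : 0 < X)
  have hX2 : a / ε ≤ X := h2.trans (by exact_mod_cast (by omega : n2 ≤ X))
  have hla : 0 ≤ Real.log (2 * a) := Real.log_nonneg (by linarith)
  set L := Real.log X with hLd
  have hL4 : 4 ≤ L := by
    have : 0 ≤ 4 / ε * Real.log (2 * a) := by positivity
    linarith
  obtain ⟨N, hN⟩ : ∃ N : ℕ, N = X / a := ⟨_, rfl⟩
  rw [← hN]
  have hdm := Nat.div_add_mod X a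
  have hml := Nat.mod_lt X (show 0 < a by omega)
  rw [← hN] at hdm
  have hN1 : 1 ≤ N := by
    rw [hN]
    exact Nat.div_pos (by omega) (by omega)
  have hNr : (1 : ℝ) ≤ N := by exact_mod_cast hN1
  have hNX : (a : ℝ) * N ≤ X := by exact_mod_cast (by omega : a * N ≤ X)
  have hNX2 : (X : ℝ) ≤ a * N + a := by exact_mod_cast (by omega : X ≤ a * N + a)
  have hNX3 : (X : ℝ) ≤ 2 * a * N := by nlinarith
  have hLN1 : Real.log N ≤ L := Real.log_le_log (by linarith) (by nlinarith)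
  have hLN2 : L ≤ Real.log (2 * a) + Real.log N := by
    rw [← Real.log_mul (by positivity) (by positivity)]
    exact Real.log_le_log hX0 hNX3
  have hη : Real.log (2 * a) ≤ ε / 4 * L := by
    have h3 : 4 / ε * Real.log (2 * a) ≤ L := by linarith
    calc Real.log (2 * a) = ε / 4 * (4 / ε * Real.log (2 * a)) := by field_simp
      _ ≤ _ := mul_le_mul_of_nonneg_left h3 (by positivity)
  have hLN3 : (1 - ε / 4) * L ≤ Real.log N := by linarith
  have hL0 : 0 < L := by linarith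
  have hp : 0 < (1 - ε / 4) * L := by
    apply mul_pos _ hL0
    linarith
  have hLN0 : 0 < Real.log N := lt_of_lt_of_le hp hLN3
  obtain ⟨T, hT⟩ : ∃ T : ℝ, T = X / (a * L ^ 2) := ⟨_, rfl⟩
  have hT0 : 0 < T := by rw [hT]; positivity
  rw [← hT, abs_le]
  have hlo : (1 - ε) * T ≤ N / Real.log N ^ 2 := by
    have h3 : (N : ℝ) / L ^ 2 ≤ N / Real.log N ^ 2 :=
      div_le_div_of_nonneg_left (by linarith) (by positivity) (pow_le_pow_left₀ hLN0.le hLN1 _)
    refine le_trans ?_ h3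
    rw [hT, le_div_iff₀ (by positivity)]
    have h4 : (1 - ε) * ((X : ℝ) / (a * L ^ 2)) * L ^ 2 = (1 - ε) * X / a := by field_simp
    rw [h4, div_le_iff₀ (by linarith)]
    have h5 : (a : ℝ) ≤ ε * X := by
      rw [div_le_iff₀ hε] at hX2
      linarith
    nlinarith
  have hup : N / Real.log N ^ 2 ≤ (1 + ε) * T := by
    have h3 : (N : ℝ) / Real.log N ^ 2 ≤ N / ((1 - ε / 4) * L) ^ 2 :=
      div_le_div_of_nonneg_left (by linarith) (by positivity) (pow_le_pow_left₀ hp.le hLN3 _)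
    refine h3.trans ?_
    rw [div_le_iff₀ (by positivity), hT]
    have h4 : (1 + ε) * ((X : ℝ) / (a * L ^ 2)) * ((1 - ε / 4) * L) ^ 2 = ((1 + ε) * (1 - ε / 4) ^ 2) * (X / a) := by
      field_simp
    rw [h4]
    have h5 : 1 ≤ (1 + ε) * (1 - ε / 4) ^ 2 := by nlinarith [sq_nonneg ε, mul_nonneg hε.le hε.le, mul_nonneg hε.le (sub_nonneg.2 hε1)]
    have h6 : (N : ℝ) ≤ X / a := by
      rw [le_div_iff₀ (by linarith)]
      linarith
    calc (N : ℝ) ≤ 1 * (X / a) := by rw [one_mul]; exact h6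
      _ ≤ _ := mul_le_mul_of_nonneg_right h5 (by positivity)
  constructor <;> linarith

/-- The number of the prime solutions `(p, q)` of `a p - b q = c` with `q ≤ X`. -/
noncomputable def count (a b : ℕ) (c : ℤ) (X : ℕ) : ℕ :=
  Set.ncard {x : ℕ × ℕ | x.1.Prime ∧ x.2.Prime ∧ (a : ℤ) * x.1 - b * x.2 = c ∧ x.2 ≤ X}

lemma solset_finite (a b : ℕ) (ha : 1 ≤ a) (c : ℕ) (Y : ℕ) (P : ℕ × ℕ → Prop) :
    {x : ℕ × ℕ | x.1.Prime ∧ x.2.Prime ∧ (a : ℤ) * x.1 - b * x.2 = (c : ℕ) ∧ x.2 ≤ Y ∧ P x}.Finite := by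
  apply ((Set.finite_Iic (b * Y + c)).prod (Set.finite_Iic Y)).subset
  rintro ⟨p, q⟩ ⟨h1, h2, h3, h4, -⟩
  simp only at h3 h4
  refine ⟨?_, h4⟩
  have h5 : a * p = b * q + c := by
    have : (a : ℤ) * p = b * q + c := by linarith
    exact_mod_cast this
  have h6 : p ≤ a * p := Nat.le_mul_of_pos_left _ ha
  have h7 : b * q ≤ b * Y := Nat.mul_le_mul_left _ h4
  show p ≤ _
  omega

lemma count_near (a b : ℕ) (ha : 1 ≤ a) (hab : Nat.Coprime a b) (c u v X : ℕ) (huv : (a : ℤ) * u - b * v = c) (hv : v < a) :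
    |(count a b c X : ℝ) - sol a b c v (X / a)| ≤ 1 := by
  obtain ⟨N, hN⟩ : ∃ N : ℕ, N = X / a := ⟨_, rfl⟩
  rw [← hN]
  have hdm := Nat.div_add_mod X a
  have hml := Nat.mod_lt X (show 0 < a by omega)
  rw [← hN] at hdm
  have hf1 : {x : ℕ × ℕ | x.1.Prime ∧ x.2.Prime ∧ (a : ℤ) * x.1 - b * x.2 = (c : ℕ) ∧ x.2 ≤ X}.Finite := by
    refine (solset_finite a b ha c X (fun _ => True)).subset ?_
    rintro x ⟨h1, h2, h3, h4⟩
    exact ⟨h1, h2, h3, h4, trivial⟩
  have hf2 : {x : ℕ × ℕ | x.1.Prime ∧ x.2.Prime ∧ (a : ℤ) * x.1 - b * x.2 = (c : ℕ) ∧ v < x.2 ∧ x.2 ≤ v + a * N}.Finite := by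
    refine (solset_finite a b ha c (v + a * N) (fun _ => True)).subset ?_
    rintro x ⟨h1, h2, h3, h4, h5⟩
    exact ⟨h1, h2, h3, h5, trivial⟩
  have hpar : ∀ p q : ℕ, (a : ℤ) * p - b * q = (c : ℕ) → ∃ t : ℕ, q = v + a * t ∧ p = u + b * t := by
    intro p q hpq
    have h1 : (a : ℤ) ∣ (q : ℤ) - v := by
      have h7 : (a : ℤ) ∣ b * ((q : ℤ) - v) := ⟨(p : ℤ) - u, by linarith⟩
      exact (Nat.isCoprime_iff_coprime.2 hab).dvd_of_dvd_mul_left h7
    obtain ⟨t, ht⟩ := h1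
    have ha0 : (0 : ℤ) < a := by exact_mod_cast ha
    have hva : (v : ℤ) < a := by exact_mod_cast hv
    have hq0 : (0 : ℤ) ≤ q := by positivity
    have ht1 : 0 ≤ t := by
      by_contra hcon
      have h9 : (a : ℤ) * t ≤ a * (-1) := mul_le_mul_of_nonneg_left (by omega) ha0.le
      omega
    obtain ⟨n, rfl⟩ : ∃ n : ℕ, t = n := ⟨t.toNat, by omega⟩
    have hq : q = v + a * n := by
      have : (q : ℤ) = v + a * n := by linarith
      exact_mod_cast this
    refine ⟨n, hq, ?_⟩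
    have h9 : (a : ℤ) * p = a * (u + b * n) := by
      rw [hq] at hpq
      push_cast at hpq
      linarith
    have := mul_left_cancel₀ ha0.ne' h9
    exact_mod_cast this
  have h1 : count a b c X ≤ sol a b c v N + 1 := by
    unfold count sol
    refine le_trans (Set.ncard_le_ncard ?_ (hf2.union (Set.finite_singleton (u, v)))) (Set.ncard_union_le _ _ |>.trans ?_)
    · rintro ⟨p, q⟩ ⟨g1, g2, g3, g4⟩
      simp only at g1 g2 g3 g4
      obtain ⟨t, rfl, rfl⟩ := hpar p q g3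
      rcases Nat.eq_zero_or_pos t with h0 | h0
      · right
        rw [h0]
        simp
      · left
        refine ⟨g1, g2, g3, ?_, ?_⟩
        · have := Nat.mul_pos (show 0 < a by omega) h0
          simp only
          omega
        · simp only
          have h2 : t ≤ N := by
            by_contra hcon
            have h9 : a * (N + 1) ≤ a * t := Nat.mul_le_mul_left _ (by omega)
            have h10 : a * (N + 1) = a * N + a := by ring
            omega
          have := Nat.mul_le_mul_left a h2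
          omega
    · rw [Set.ncard_singleton]
  have h2 : sol a b c v N ≤ count a b c X + 1 := by
    unfold count sol
    refine le_trans (Set.ncard_le_ncard ?_ (hf1.union (Set.finite_singleton (u + b * N, v + a * N)))) (Set.ncard_union_le _ _ |>.trans ?_)
    · rintro ⟨p, q⟩ ⟨g1, g2, g3, g4, g5⟩
      simp only at g1 g2 g3 g4 g5
      obtain ⟨t, rfl, rfl⟩ := hpar p q g3
      have h2 : t ≤ N := by
        have h3 : a * t ≤ a * N := by omega
        exact Nat.le_of_mul_le_mul_left h3 (by omega)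
      rcases Nat.lt_or_ge t N with h0 | h0
      · left
        refine ⟨g1, g2, g3, ?_⟩
        simp only
        have h9 : a * (t + 1) ≤ a * N := Nat.mul_le_mul_left _ (by omega)
        have h10 : a * (t + 1) = a * t + a := by ring
        omega
      · right
        have : t = N := by omega
        rw [this]
        simp
    · rw [Set.ncard_singleton]
  have h1' : (count a b c X : ℝ) ≤ sol a b c v N + 1 := by exact_mod_cast h1
  have h2' : (sol a b c v N : ℝ) ≤ count a b c X + 1 := by exact_mod_cast h2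
  rw [abs_le]
  constructor <;> linarith

/-- The formula of Hardy and Littlewood for the number of the prime solutions of `a p - b q = c` with `q ≤ X`: the partial
products `sing a b c` of the singular series converge to some `G > 0`, and the number is `G X / (a log ^ 2 X)` up to a
relative error of at most `ε`. -/
def HL (ε : ℝ) (a b : ℕ) (c : ℤ) (X : ℕ) : Prop :=
  ∃ G : ℝ, 0 < G ∧ Tendsto (sing a b c) atTop (nhds G) ∧
    |(count a b c X : ℝ) - G * (X / (a * Real.log X ^ 2))| ≤ ε * (G * (X / (a * Real.log X ^ 2)))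

/-- almost all members of a family of nearly minimal energy -/
theorem main (a b : ℕ) (ha : 1 ≤ a) (hb : 1 ≤ b) (hab : Nat.Coprime a b) (h B C U : ℕ) (ε : ℝ) (hε : 0 < ε) :
    ∃ X0 : ℕ, ∀ X : ℕ, X0 ≤ X → ∀ (x : ℕ) (s : ℕ → ℕ),
      (∀ m ∈ Icc 1 x, 1 ≤ s m ∧ s m ≤ B * X) →
      (energy h x (fun m => (s m : ℤ)) : ℝ) * X ≤ Real.log X ^ C * (x : ℝ) ^ (2 * h) →
      ∀ T : Finset ℕ, T ⊆ Icc 1 x → (∀ m ∈ T, Ok a b (s m) ∧ ¬ HL ε a b (s m) X) →
      (T.card : ℝ) ≤ x / Real.log X ^ U := by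
  obtain ⟨ε', hε'⟩ : ∃ ε' : ℝ, ε' = min (ε / 4) (1 / 2) := ⟨_, rfl⟩
  have hε'0 : 0 < ε' := by rw [hε']; exact lt_min (by positivity) (by norm_num)
  have hε'1 : ε' ≤ ε / 4 := by rw [hε']; exact min_le_left _ _
  have hε'2 : ε' ≤ 1 / 2 := by rw [hε']; exact min_le_right _ _
  obtain ⟨c₀, hc₀, n1, hfam⟩ := fam a b ha hb hab h (2 * a * B) (2 * C) (U + 1) ε' hε'0
  obtain ⟨n2, hconv⟩ := conv a ha ε' hε'0 (by linarith)
  obtain ⟨n3, hL3⟩ := ev_L' (2 * Real.log (2 * a) + 2 ^ (U + 1) + 4)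
  obtain ⟨n4, hL4⟩ := ev_log' 3 (a / (ε' * c₀))
  refine ⟨a * (n1 + 1) + n2 + n3 + n4 + 3 + a, fun X hX x s hs hE T hTx hT => ?_⟩
  have har : (1 : ℝ) ≤ a := by exact_mod_cast ha
  have hX0 : (0 : ℝ) < X := by exact_mod_cast (by omega : 0 < X)
  have hL := hL3 X (by omega)
  have hla : 0 ≤ Real.log (2 * a) := Real.log_nonneg (by linarith)
  have h2U : (0 : ℝ) < 2 ^ (U + 1) := by positivity
  set L := Real.log X with hLd
  have hL4' : 4 ≤ L := by linarith
  have hL0 : 0 < L := by linarith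
  obtain ⟨N, hN⟩ : ∃ N : ℕ, N = X / a := ⟨_, rfl⟩
  have hdm := Nat.div_add_mod X a
  have hml := Nat.mod_lt X (show 0 < a by omega)
  rw [← hN] at hdm
  have hNn1 : n1 ≤ N := by
    have h3 : a * (n1 + 1) ≤ a * (N + 1) := by
      have : a * (N + 1) = a * N + a := by ring
      omega
    have := Nat.le_of_mul_le_mul_left h3 (by omega)
    omega
  have hN1 : 1 ≤ N := by
    rw [hN]
    exact Nat.div_pos (by omega) (by omega)
  have hNr : (1 : ℝ) ≤ N := by exact_mod_cast hN1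
  have hNX : a * N ≤ X := by omega
  have hNX2 : X ≤ 2 * a * N := by
    have h3 : a * 1 ≤ a * N := Nat.mul_le_mul_left _ hN1
    have h4 : 2 * a * N = a * N + a * N := by ring
    omega
  have hNleX : N ≤ X := le_trans (Nat.le_mul_of_pos_left _ ha) hNX
  have hNX3 : (X : ℝ) ≤ 2 * a * N := by exact_mod_cast hNX2
  have hLN1 : Real.log N ≤ L := Real.log_le_log (by linarith) (by exact_mod_cast hNleX)
  have hLN2 : L ≤ Real.log (2 * a) + Real.log N := by
    rw [← Real.log_mul (by positivity) (by positivity)]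
    exact Real.log_le_log hX0 hNX3
  have hLN3 : L / 2 ≤ Real.log N := by linarith
  have hLN4 : 2 ≤ Real.log N := by linarith
  have hw := fun m : ℕ => sols a b ha hab (s m)
  choose w hw1 hw2 using hw
  have hcard := hfam N hNn1 x s (fun m hm => ⟨(hs m hm).1, (hs m hm).2.trans (by
      calc B * X ≤ B * (2 * a * N) := Nat.mul_le_mul_left _ hNX2
        _ = 2 * a * B * N := by ring)⟩) (by
      calc (energy h x (fun m => (s m : ℤ)) : ℝ) * N ≤ energy h x (fun m => (s m : ℤ)) * X := by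
            apply mul_le_mul_of_nonneg_left _ (Nat.cast_nonneg _)
            exact_mod_cast hNleX
        _ ≤ L ^ C * (x : ℝ) ^ (2 * h) := hE
        _ ≤ Real.log N ^ (2 * C) * (x : ℝ) ^ (2 * h) := by
            apply mul_le_mul_of_nonneg_right _ (by positivity)
            rw [pow_mul]
            apply pow_le_pow_left₀ hL0.le
            nlinarith)
      (fun m => (w m).1) (fun m => (w m).2) (fun m => ⟨hw1 m, hw2 m⟩) T hTx (fun m hm => ?_)
  · refine hcard.trans ?_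
    apply div_le_div_of_nonneg_left (Nat.cast_nonneg _) (by positivity)
    calc L ^ U ≤ (L / 2) ^ (U + 1) := by
          rw [div_pow, le_div_iff₀ (by positivity), pow_succ L]
          apply mul_le_mul_of_nonneg_left _ (by positivity)
          linarith
      _ ≤ _ := pow_le_pow_left₀ (by positivity) hLN3 _
  · obtain ⟨hOk, hno⟩ := hT m hm
    refine ⟨hOk, fun hG => hno ?_⟩
    obtain ⟨G, hG1, hG2, hG3⟩ := hG
    have hG0 : 0 < G := lt_of_lt_of_le hc₀ hG1
    refine ⟨G, hG0, hG2, ?_⟩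
    have hnear := count_near a b ha hab (s m) (w m).1 (w m).2 X (hw1 m) (hw2 m)
    rw [← hN] at hnear
    have hcv := hconv X (by omega)
    rw [← hN] at hcv
    obtain ⟨T1, hT1⟩ : ∃ T1 : ℝ, T1 = X / (a * L ^ 2) := ⟨_, rfl⟩
    obtain ⟨T2, hT2⟩ : ∃ T2 : ℝ, T2 = N / Real.log N ^ 2 := ⟨_, rfl⟩
    rw [← hT1, ← hT2] at hcv
    rw [← hT2] at hG3
    rw [← hT1]
    have hT10 : 0 < T1 := by rw [hT1]; positivity
    have hbig : 1 ≤ ε' * (G * T1) := by
      have h3 := hL4 X (by omega)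
      have h4 : √(X : ℝ) ≤ X := by
        rw [Real.sqrt_le_left hX0.le]
        have : (1 : ℝ) ≤ X := by exact_mod_cast (by omega : 1 ≤ X)
        nlinarith
      have h5 : a / (ε' * c₀) * L ^ 2 ≤ X := by
        refine le_trans ?_ (h3.trans h4)
        apply mul_le_mul_of_nonneg_left _ (by positivity)
        exact pow_le_pow_right₀ (by linarith) (by norm_num)
      have h6 : 1 ≤ ε' * (c₀ * T1) := by
        rw [hT1]
        rw [div_mul_eq_mul_div, div_le_iff₀ (by positivity)] at h5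
        have h7 : ε' * (c₀ * ((X : ℝ) / (a * L ^ 2))) = (X * (ε' * c₀)) / (a * L ^ 2) := by ring
        rw [h7, le_div_iff₀ (by positivity)]
        linarith
      refine h6.trans ?_
      gcongr
    have h3 : |G * T2 - G * T1| ≤ ε' * (G * T1) := by
      rw [← mul_sub, abs_mul, abs_of_pos hG0]
      calc G * |T2 - T1| ≤ G * (ε' * T1) := mul_le_mul_of_nonneg_left hcv hG0.le
        _ = _ := by ring
    have h4 := abs_le.1 hnear
    have h5 := abs_le.1 hG3
    have h6 := abs_le.1 h3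
    have hGT : 0 < G * T1 := by positivity
    have h7 : ε' * (G * T2) ≤ ε' * (2 * (G * T1)) := by
      apply mul_le_mul_of_nonneg_left _ hε'0.le
      have : ε' * (G * T1) ≤ 1 * (G * T1) := mul_le_mul_of_nonneg_right (by linarith) hGT.le
      linarith [h6.2]
    have h8 : 4 * (ε' * (G * T1)) ≤ ε * (G * T1) := by
      have : ε' * (G * T1) ≤ ε / 4 * (G * T1) := mul_le_mul_of_nonneg_right hε'1 hGT.le
      linarith
    rw [abs_le]
    constructor
    · linarith [h4.1, h5.1, h6.1]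
    · linarith [h4.2, h5.2, h6.2]

end Pool.Agent.K7.H63.TC
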