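import Mathlib
import Pool.Agent.K7.H63.TC.Main
import Pool.Agent.K7.H49.SM.Fam

set_option autoImplicit false

/-! The formula of Hardy and Littlewood for `a p - b q = c`, for almost all elements of thin sets of constants. -/

namespace Pool.Agent.K7.H63.TC

open Finset Filter
open Pool.Agent.Results.MP_bf63dc_nt.BoundedlyManyPowers (Ok sing sol)
open Pool.Agent.K7.H49.SM (S psi mem_S enum energy_min energy_mono)

/-- the additive energy of order `h` of a finite set -/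
def energyF (h : ℕ) (A : Finset ℕ) : ℕ :=
  ((Fintype.piFinset (fun _ : Fin h => A) ×ˢ Fintype.piFinset (fun _ : Fin h => A)).filter
    (fun q => ∑ i, q.1 i = ∑ i, q.2 i)).card

lemma energy_enum (h : ℕ) (A : Finset ℕ) (e : ℕ → ℕ) (he1 : ∀ m ∈ Icc 1 A.card, e m ∈ A)
    (he2 : ∀ m ∈ Icc 1 A.card, ∀ n ∈ Icc 1 A.card, e m = e n → m = n) :
    Pool.Agent.H560R3.GB.energy h A.card e ≤ energyF h A := by
  classical
  unfold Pool.Agent.H560R3.GB.energy energyF
  apply card_le_card_of_injOn (fun q => (fun i => e (q.1 i), fun i => e (q.2 i)))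
  · intro q hq
    rw [mem_coe, mem_filter, mem_product, Fintype.mem_piFinset, Fintype.mem_piFinset] at hq ⊢
    obtain ⟨⟨h1, h2⟩, h3⟩ := hq
    exact ⟨⟨fun i => he1 _ (h1 i), fun i => he1 _ (h2 i)⟩, h3⟩
  · intro q hq q' hq' hqq
    rw [mem_coe, mem_filter, mem_product, Fintype.mem_piFinset, Fintype.mem_piFinset] at hq hq'
    simp only [Prod.mk.injEq] at hqq
    refine Prod.ext (funext fun i => ?_) (funext fun i => ?_)
    · exact he2 _ (hq.1.1 i) _ (hq'.1.1 i) (congrFun hqq.1 i)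
    · exact he2 _ (hq.1.2 i) _ (hq'.1.2 i) (congrFun hqq.2 i)

lemma energy_cast (h x : ℕ) (s : ℕ → ℕ) : Pool.Agent.H373R2.T7.energy h x (fun m => (s m : ℤ)) = Pool.Agent.H560R3.GB.energy h x s := by
  unfold Pool.Agent.H560R3.GB.energy Pool.Agent.H373R2.T7.energy
  congr 1
  apply filter_congr
  intro q _
  beta_reduce
  rw [← Nat.cast_sum, ← Nat.cast_sum, Nat.cast_inj]

open Classical in
/-- sets of nearly minimal energy -/
theorem thin (a b : ℕ) (ha : 1 ≤ a) (hb : 1 ≤ b) (hab : Nat.Coprime a b) (h C U : ℕ) (ε : ℝ) (hε : 0 < ε) :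
    ∃ X₀ : ℕ, ∀ X : ℕ, X₀ ≤ X → ∀ A : Finset ℕ, (∀ c ∈ A, 1 ≤ c ∧ c ≤ C * X) →
      (energyF h A : ℝ) * X ≤ Real.log X ^ C * (A.card : ℝ) ^ (2 * h) →
      ((A.filter (fun c : ℕ => Ok a b c ∧ ¬ HL ε a b c X)).card : ℝ) ≤ A.card / Real.log X ^ U := by
  obtain ⟨X0, hX0⟩ := main a b ha hb hab h C C U ε hε
  refine ⟨X0, fun X hX A hA hE => ?_⟩
  obtain ⟨e, he1, he2, he3⟩ := enum A
  have h1 := hX0 X hX A.card e (fun m hm => hA _ (he1 m hm)) (by
    rw [energy_cast]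
    refine le_trans ?_ hE
    apply mul_le_mul_of_nonneg_right _ (Nat.cast_nonneg _)
    exact_mod_cast energy_enum h A e he1 he2)
    ((Icc 1 A.card).filter (fun m => Ok a b (e m) ∧ ¬ HL ε a b (e m) X)) (filter_subset _ _)
    (fun m hm => (mem_filter.1 hm).2)
  refine le_trans ?_ h1
  rw [Nat.cast_le]
  apply card_le_card_of_surjOn e
  intro c hc
  rw [mem_coe, mem_filter] at hc
  obtain ⟨m, hm, rfl⟩ := he3 c hc.1
  exact ⟨m, by rw [mem_coe, mem_filter]; exact ⟨hm, hc.2⟩, rfl⟩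

open Classical in
/-- constants composed of given primes -/
theorem smooth (a b : ℕ) (ha : 1 ≤ a) (hb : 1 ≤ b) (hab : Nat.Coprime a b) (C U : ℕ) (δ ε : ℝ) (hδ : 0 < δ) (hε : 0 < ε) :
    ∃ X₀ : ℕ, ∀ X : ℕ, X₀ ≤ X → ∀ y : ℕ, 2 ≤ y → (y : ℝ) ≤ Real.log X ^ C →
    ∀ P : Finset ℕ, (∀ p ∈ P, p.Prime ∧ p ≤ y) → (y : ℝ) ^ (1 / 2 + δ) * Real.log X ≤ P.card →
    ∀ c₀ κ : ℕ, 1 ≤ κ → ∀ Y : ℕ, X ≤ Y → (Y : ℝ) ≤ X * Real.log X ^ C → c₀ + κ * X ≤ C * Y →
    (((S P X).filter (fun l : ℕ => Ok a b (c₀ + κ * l) ∧ ¬ HL ε a b (c₀ + κ * l) Y)).card : ℝ) ≤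
      (S P X).card / Real.log Y ^ U := by
  obtain ⟨h, D, X1, hh, hE⟩ := energy_min C δ hδ
  obtain ⟨X0, hX0⟩ := main a b ha hb hab h C (C + D) U ε hε
  refine ⟨max (max X1 X0) 64, fun X hX y hy1 hy2 P hP hPc c₀ κ hκ Y hXY hYX hc => ?_⟩
  have hX1 : X1 ≤ X := le_trans (le_trans (le_max_left _ _) (le_max_left _ _)) hX
  have hX0' : X0 ≤ X := le_trans (le_trans (le_max_right _ _) (le_max_left _ _)) hX
  have hX64 : 64 ≤ X := le_trans (le_max_right _ _) hX
  obtain ⟨e, he1, he2, he3⟩ := enum (S P X)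
  have hen := hE X hX1 y hy1 hy2 P hP hPc e he1 he2 he3
  set L := Real.log X with hLd
  have hXr : (64 : ℝ) ≤ X := by exact_mod_cast hX64
  have hL0 : 0 < L := Real.log_pos (by linarith)
  have hX00 : (0 : ℝ) < X := by linarith
  have hLY : L ≤ Real.log Y := Real.log_le_log hX00 (by exact_mod_cast hXY)
  have h1 := hX0 Y (hX0'.trans hXY) (S P X).card (fun m => c₀ + κ * e m) (fun m hm => by
      have h2 := mem_S.1 (he1 m hm)
      refine ⟨?_, (Nat.add_le_add_left (Nat.mul_le_mul_left _ h2.2.1) _).trans hc⟩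
      have := Nat.mul_pos (show 0 < κ by omega) (show 0 < e m by omega)
      omega) (by
      have h2 : Pool.Agent.H560R3.GB.energy h (S P X).card (fun m => c₀ + κ * e m) ≤ Pool.Agent.H560R3.GB.energy h (S P X).card e :=
        energy_mono h _ _ (fun m => c₀ + κ * e m) e (fun m => m) c₀ κ hκ (fun m hm => hm)
          (fun m _ n _ h => h) (fun m _ => rfl)
      have h3 : (Pool.Agent.H560R3.GB.energy h (S P X).card (fun m => c₀ + κ * e m) : ℝ) ≤ Pool.Agent.H560R3.GB.energy h (S P X).card e := by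
        exact_mod_cast h2
      rw [energy_cast]
      calc _ ≤ (Pool.Agent.H560R3.GB.energy h (S P X).card e : ℝ) * (X * L ^ C) := by gcongr
        _ = (X * Pool.Agent.H560R3.GB.energy h (S P X).card e) * L ^ C := by ring
        _ ≤ (L ^ D * (psi P X : ℝ) ^ (2 * h)) * L ^ C := mul_le_mul_of_nonneg_right hen (by positivity)
        _ = L ^ (C + D) * (psi P X : ℝ) ^ (2 * h) := by ring
        _ ≤ Real.log Y ^ (C + D) * (psi P X : ℝ) ^ (2 * h) := by gcongr
        _ = _ := rfl)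
    ((Icc 1 (S P X).card).filter (fun m => Ok a b (c₀ + κ * e m) ∧ ¬ HL ε a b (c₀ + κ * e m) Y)) (filter_subset _ _)
    (fun m hm => by
      have h2 := (mem_filter.1 hm).2
      push_cast
      exact h2)
  refine le_trans ?_ h1
  rw [Nat.cast_le]
  apply card_le_card_of_surjOn e
  intro c hc
  rw [mem_coe, mem_filter] at hc
  obtain ⟨m, hm, rfl⟩ := he3 c hc.1
  exact ⟨m, by rw [mem_coe, mem_filter]; exact ⟨hm, hc.2⟩, rfl⟩

end Pool.Agent.K7.H63.TC
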